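import Mathlib
import Pool.Agent.TH932.S2.G.Gc
import Pool.Agent.TH932.S2.G.Cy

set_option autoImplicit false

/-!
# The cycles of Conway's permutation: block complexity
-/

namespace Pool.Agent.Results.MP_e27b9f_nt.CyclesOfLinearComplexity

open Pool.Agent.TH932.S2.G

/-- Conway's map: `3n/2` for even `n`, `(3n+1)/4` for `n ≡ 1 (mod 4)`, `(3n-1)/4` for
`n ≡ 3 (mod 4)` -/
def T (n : ℕ) : ℕ :=
  if n % 2 = 0 then 3 * n / 2 else if n % 4 = 1 then (3 * n + 1) / 4 else (3 * n - 1) / 4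

/-- the branch of the map used at `n`: `0` for even `n`, otherwise `n` modulo `4` -/
def branch (n : ℕ) : ℕ := if n % 2 = 0 then 0 else n % 4

/-- `Z` is a cycle of `T` in the positive integers -/
def IsCycle (Z : Finset ℕ) : Prop :=
  ∃ x p : ℕ, 1 ≤ x ∧ 1 ≤ p ∧ T^[p] x = x ∧ Z = (Finset.range p).image fun i => T^[i] x

/-- the number of different words of `k` consecutive branches along `Z` -/
def words (Z : Finset ℕ) (k : ℕ) : ℕ :=
  (Z.image fun x => fun j : Fin k => branch (T^[(j : ℕ)] x)).card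

/-- the inverse map, on the integers -/
def F (x : ℤ) : ℤ :=
  if x % 3 = 0 then 2 * x / 3 else if x % 3 = 1 then (4 * x - 1) / 3 else (4 * x + 1) / 3

/-- exponents -/
def dl (a : ZMod 3) : ℕ := if a = 0 then 1 else 2

/-- constant terms -/
def bt (a : ZMod 3) : ℤ := if a = 0 then 0 else if a = 1 then -1 else 1

lemma cast_eq {x : ℤ} (a : ℤ) : ((x : ℤ) : ZMod 3) = ((a : ℤ) : ZMod 3) ↔ x % 3 = a % 3 := by
  rw [ZMod.intCast_eq_intCast_iff, Int.ModEq]
  norm_num

lemma hG (x : ℤ) : ((3 : ℕ) : ℤ) * F x = ((2 : ℕ) : ℤ) ^ dl (x : ZMod 3) * x + bt (x : ZMod 3) := by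
  have e0 : (x : ZMod 3) = 0 ↔ x % 3 = 0 := by
    have := cast_eq (x := x) 0
    simpa using this
  have e1 : (x : ZMod 3) = 1 ↔ x % 3 = 1 := by
    have := cast_eq (x := x) 1
    simpa using this
  unfold F dl bt
  rcases (by omega : x % 3 = 0 ∨ x % 3 = 1 ∨ x % 3 = 2) with h | h | h
  · rw [if_pos h, if_pos (e0.2 h), if_pos (e0.2 h)]
    push_cast
    omega
  · rw [if_neg (by omega), if_pos h, if_neg (by rw [e0]; omega), if_neg (by rw [e0]; omega),
      if_pos (e1.2 h)]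
    push_cast
    omega
  · rw [if_neg (by omega), if_neg (by omega), if_neg (by rw [e0]; omega),
      if_neg (by rw [e0]; omega), if_neg (by rw [e1]; omega)]
    push_cast
    omega

lemma F_T {n : ℕ} (hn : 1 ≤ n) : F (T n : ℕ) = n := by
  unfold F T
  split_ifs <;> omega

lemma T_pos {n : ℕ} (hn : 1 ≤ n) : 1 ≤ T n := by
  unfold T
  split_ifs <;> omega

lemma pos_iter {n : ℕ} (hn : 1 ≤ n) (i : ℕ) : 1 ≤ T^[i] n := by
  induction i with
  | zero => exact hn
  | succ i ih => rw [Function.iterate_succ_apply']; exact T_pos ih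

lemma cyc_of {Z : Finset ℕ} (hZ : IsCycle Z) : Cy.IsCycle T Z ∧ ∀ x ∈ Z, 1 ≤ x := by
  obtain ⟨x, p, hx, hp, hxp, hZ⟩ := hZ
  refine ⟨⟨x, p, hp, hxp, hZ⟩, fun y hy => ?_⟩
  rw [hZ, Finset.mem_image] at hy
  obtain ⟨i, _, rfl⟩ := hy
  exact pos_iter hx i

/-- the residue of `T n` modulo `3` in terms of the branch at `n` -/
def φ (b : ℕ) : ZMod 3 := if b = 0 then 0 else if b = 1 then 1 else 2

lemma res_T {n : ℕ} (hn : 1 ≤ n) : (((T n : ℕ) : ℤ) : ZMod 3) = φ (branch n) := by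
  have e : φ (branch n) = ((if n % 2 = 0 then 0 else if n % 4 = 1 then 1 else 2 : ℤ) : ZMod 3) := by
    unfold φ branch
    rcases (by omega : n % 2 = 0 ∨ n % 4 = 1 ∨ n % 4 = 3) with h | h | h
    · rw [if_pos (by rw [if_pos h]), if_pos h]; simp
    · rw [if_neg (by rw [if_neg (by omega)]; omega), if_pos (by rw [if_neg (by omega)]; omega),
        if_neg (by omega), if_pos h]
      simp
    · rw [if_neg (by rw [if_neg (by omega)]; omega), if_neg (by rw [if_neg (by omega)]; omega),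
        if_neg (by omega), if_neg (by omega)]
      simp
  rw [e, cast_eq]
  unfold T
  split_ifs <;> omega

/-- blocks of the inverse map along a cycle -/
lemma blk_le {Z : Finset ℕ} (hZ : IsCycle Z) {x : ℕ} (hx : x ∈ Z) (k : ℕ) :
    Gc.blkAll 3 F x k ≤ words Z k := by
  classical
  obtain ⟨hC, hpos⟩ := cyc_of hZ
  obtain ⟨p, hp, hper⟩ := Cy.per hC
  -- the inverse map on the cycle
  have hF : ∀ z ∈ Z, ∃ z' ∈ Z, F (z : ℕ) = (z' : ℕ) ∧ T z' = z := by
    intro z hz
    refine ⟨T^[p - 1] z, Cy.closed hC hz _, ?_, ?_⟩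
    · have h1 : T (T^[p - 1] z) = z := by
        rw [← Function.iterate_succ_apply' T (p - 1) z, Nat.succ_eq_add_one, Nat.sub_add_cancel hp]
        exact hper z hz
      have h2 := F_T (hpos _ (Cy.closed hC hz (p - 1)))
      rw [h1] at h2
      exact h2
    · rw [← Function.iterate_succ_apply' T (p - 1) z, Nat.succ_eq_add_one, Nat.sub_add_cancel hp]
      exact hper z hz
  have hFi : ∀ i, ∃ z ∈ Z, F^[i] (x : ℕ) = (z : ℕ) := by
    intro i
    induction i with
    | zero => exact ⟨x, hx, rfl⟩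
    | succ i ih =>
      obtain ⟨z, hz, h⟩ := ih
      obtain ⟨z', hz', h1, _⟩ := hF z hz
      exact ⟨z', hz', by rw [Function.iterate_succ_apply', h, h1]⟩
  choose g hgZ hg using hFi
  have hT : ∀ i, T (g (i + 1)) = g i := by
    intro i
    obtain ⟨z', hz', h1, h2⟩ := hF (g i) (hgZ i)
    have h3 := hg (i + 1)
    rw [Function.iterate_succ_apply', hg i, h1] at h3
    have h4 : z' = g (i + 1) := by exact_mod_cast h3
    rw [← h4]; exact h2
  have hTl : ∀ l i, T^[l] (g (i + l)) = g i := by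
    intro l
    induction l with
    | zero => intro i; rfl
    | succ l ih =>
      intro i
      rw [Function.iterate_succ_apply, show i + (l + 1) = (i + l) + 1 by ring, hT, ih]
  have hsub : (Set.range fun i : ℕ => fun j : Fin k => ((F^[i + j] (x : ℕ) : ℤ) : ZMod 3)) ⊆
      (((Z.image fun x => fun j : Fin k => branch (T^[(j : ℕ)] x)).image
        fun v : Fin k → ℕ => fun j : Fin k => φ (v ⟨k - 1 - j, by omega⟩) : Finset _) : Set _) := by
    rintro _ ⟨i, rfl⟩
    rw [Finset.coe_image, Finset.coe_image]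
    refine ⟨_, ⟨g (i + k), hgZ _, rfl⟩, ?_⟩
    funext j
    simp only
    have hj := j.2
    rw [hg (i + j), ← hT (i + j)]
    have h1 : T^[k - 1 - j] (g (i + k)) = g (i + j + 1) := by
      have := hTl (k - 1 - j) (i + j + 1)
      rwa [show i + (j : ℕ) + 1 + (k - 1 - j) = i + k by omega] at this
    rw [h1]
    exact (res_T (hpos _ (hgZ _))).symm
  unfold Gc.blkAll words
  refine (Set.ncard_le_ncard hsub (Finset.finite_toSet _)).trans ?_
  rw [Set.ncard_coe_finset]
  exact Finset.card_image_le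

lemma blk_le' {Z : Finset ℕ} (hZ : IsCycle Z) {x : ℕ} (hx : x ∈ Z) (h k : ℕ) :
    Gc.blk 3 F x h k ≤ words Z k := by
  refine le_trans ?_ (blk_le hZ hx k)
  unfold Gc.blk Gc.blkAll
  exact Set.ncard_le_ncard (Set.image_subset_range _ _) (Set.toFinite _)

/-- from the inverse map to the cycle -/
lemma back {Z : Finset ℕ} (hZ : IsCycle Z) {x : ℕ} (hx : x ∈ Z) :
    (∀ i, ∃ z ∈ Z, F^[i] (x : ℕ) = (z : ℕ)) ∧ (∀ z ∈ Z, ∀ k, 1 ≤ k → F^[k] (z : ℕ) = (z : ℕ) →
      Z.card ≤ k) ∧ ∀ z ∈ Z, ∀ y ∈ Z, ∃ i, F^[i] (z : ℕ) = (y : ℕ) := by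
  classical
  obtain ⟨hC, hpos⟩ := cyc_of hZ
  obtain ⟨p, hp, hper⟩ := Cy.per hC
  have key : ∀ z ∈ Z, ∀ i, F^[i] ((T^[i] z : ℕ) : ℤ) = (z : ℕ) := by
    intro z hz i
    induction i with
    | zero => rfl
    | succ i ih =>
      rw [Function.iterate_succ_apply, Function.iterate_succ_apply' T,
        F_T (pos_iter (hpos z hz) i), ih]
  have hall : ∀ z ∈ Z, ∀ i, ∃ y ∈ Z, F^[i] (z : ℕ) = (y : ℕ) := by
    intro z hz i
    have h1 : T^[i] (T^[p * i - i] z) = z := by
      rw [← Function.iterate_add_apply, Nat.add_sub_cancel' (Nat.le_mul_of_pos_left i hp),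
        Function.iterate_mul]
      exact Function.iterate_fixed (hper z hz) i
    refine ⟨T^[p * i - i] z, Cy.closed hC hz _, ?_⟩
    have h2 := key (T^[p * i - i] z) (Cy.closed hC hz _) i
    rw [h1] at h2
    exact h2
  refine ⟨hall x hx, ?_, ?_⟩
  · intro z hz k hk hzk
    refine Cy.card_le hC hz hk ?_
    -- `T^[k] z = z`
    have h1 : F^[k] ((T^[k] z : ℕ) : ℤ) = (z : ℕ) := key z hz k
    have hinj : ∀ a ∈ Z, ∀ b ∈ Z, ∀ i, F^[i] (a : ℕ) = F^[i] (b : ℕ) → a = b := by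
      intro a ha b hb i h
      obtain ⟨a', ha', e1⟩ := hall a ha i
      -- apply the period
      have e2 : F^[p * i] (a : ℕ) = (a : ℕ) := by
        have := key a ha (p * i)
        rwa [Function.iterate_mul T, Function.iterate_fixed (hper a ha) i] at this
      have e3 : F^[p * i] (b : ℕ) = (b : ℕ) := by
        have := key b hb (p * i)
        rwa [Function.iterate_mul T, Function.iterate_fixed (hper b hb) i] at this
      have e4 : p * i = (p * i - i) + i := by
        have := Nat.le_mul_of_pos_left i hp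
        omega
      rw [e4, Function.iterate_add_apply] at e2 e3
      rw [h, e3] at e2
      exact_mod_cast e2.symm
    refine hinj _ (Cy.closed hC hz k) _ hz k ?_
    rw [h1, hzk]
  · intro z hz y hy
    obtain ⟨i, hi⟩ := Cy.reach hC hy hz
    exact ⟨i, by rw [← hi]; exact key y hy i⟩

/-- **Result.** Let `A` be a real number.

(1) There are only finitely many cycles `Z` of Conway's map such that for every `n ≥ 1` at most
`A n` different words of `n` consecutive branches occur along `Z`.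

(2) There is `K` such that for all `1 ≤ M ≤ N` and all cycles `Z` with an element `x ≤ 2 ^ N`: if for
`M ≤ n ≤ K N` at most `A n` different words of `n` consecutive branches occur along `Z`, then `Z` has
at most `K M` elements, all at most `2 ^ (K M)`.

(3) There is `K` such that for all `N ≥ K` and all cycles `Z` with an element `x ≤ 2 ^ N`: if at most
`A N` different words of `N` consecutive branches occur along `Z`, then `Z` has at most `N ^ K`
elements, all at most `2 ^ (K N)`. -/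
theorem result (A : ℝ) :
    {Z : Finset ℕ | IsCycle Z ∧ ∀ n : ℕ, 1 ≤ n → (words Z n : ℝ) ≤ A * n}.Finite ∧
    (∃ K : ℕ, ∀ (Z : Finset ℕ) (M N : ℕ), IsCycle Z → 1 ≤ M → M ≤ N → (∃ x ∈ Z, x ≤ 2 ^ N) →
      (∀ n : ℕ, M ≤ n → n ≤ K * N → (words Z n : ℝ) ≤ A * n) →
      Z.card ≤ K * M ∧ ∀ y ∈ Z, y ≤ 2 ^ (K * M)) ∧
    (∃ K : ℕ, ∀ (Z : Finset ℕ) (N : ℕ), IsCycle Z → K ≤ N → (∃ x ∈ Z, x ≤ 2 ^ N) →
      (words Z N : ℝ) ≤ A * N → Z.card ≤ N ^ K ∧ ∀ y ∈ Z, y ≤ 2 ^ (K * N)) := by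
  classical
  refine ⟨?_, ?_, ?_⟩
  · have hfin := Gc.fin (d := 3) (q := 2) (by norm_num) le_rfl (by norm_num) hG A
    have hfin2 : {x : ℕ | ((x : ℕ) : ℤ) ∈ {x : ℤ | (∃ k, 1 ≤ k ∧ F^[k] x = x) ∧
        ∀ n : ℕ, 1 ≤ n → (Gc.blkAll 3 F x n : ℝ) ≤ A * n}}.Finite :=
      hfin.preimage (Nat.cast_injective.injOn)
    refine (Set.Finite.finite_subsets hfin2).preimage (f := fun Z : Finset ℕ => (Z : Set ℕ))
      (fun a _ b _ h => by simpa using h) |>.subset ?_
    rintro Z ⟨hZ, hcx⟩ x hx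
    refine ⟨?_, fun n hn => le_trans ?_ (hcx n hn)⟩
    · obtain ⟨hC, hpos⟩ := cyc_of hZ
      obtain ⟨p, hp, hper⟩ := Cy.per hC
      obtain ⟨-, -, h3⟩ := back hZ hx
      obtain ⟨i, hi⟩ := h3 x hx (T x) (Cy.closed hC hx 1)
      refine ⟨i + 1, by omega, ?_⟩
      rw [Function.iterate_succ_apply', hi]
      exact F_T (hpos x hx)
    · exact_mod_cast blk_le hZ hx n
  · obtain ⟨K, h⟩ := Gc.all (d := 3) (q := 2) (by norm_num) le_rfl (by norm_num) hG A
    refine ⟨K, fun Z M N hZ hM hMN ⟨x, hx, hxN⟩ hcx => ?_⟩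
    obtain ⟨i, hi, ⟨k, hk1, hk2, hk⟩, hb⟩ := h x M N hM hMN (by
        rw [abs_of_nonneg (by positivity)]; exact_mod_cast hxN) (fun n h1 h2 => by
        refine le_trans ?_ (hcx n h1 h2)
        exact_mod_cast blk_le' hZ hx (K * N) n)
    obtain ⟨h1, h2, h3⟩ := back hZ hx
    obtain ⟨z, hz, hzi⟩ := h1 i
    rw [hzi] at hk hb
    refine ⟨(h2 z hz k hk1 hk).trans hk2, fun y hy => ?_⟩
    obtain ⟨j, hj⟩ := h3 z hz y hy
    have := hb j
    rw [hj, abs_of_nonneg (by positivity)] at this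
    exact_mod_cast this
  · obtain ⟨K, h⟩ := Gc.one (d := 3) (q := 2) (by norm_num) le_rfl (by norm_num) hG A
    refine ⟨K, fun Z N hZ hN ⟨x, hx, hxN⟩ hcx => ?_⟩
    obtain ⟨⟨i, hi, k, hk1, hk2, hk⟩, hb⟩ := h x N hN (by
        rw [abs_of_nonneg (by positivity)]; exact_mod_cast hxN) (by
        refine le_trans ?_ hcx
        exact_mod_cast blk_le' hZ hx (N ^ K) N)
    obtain ⟨h1, h2, h3⟩ := back hZ hx
    obtain ⟨z, hz, hzi⟩ := h1 i
    rw [hzi] at hk
    refine ⟨(h2 z hz k hk1 hk).trans hk2, fun y hy => ?_⟩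
    obtain ⟨j, hj⟩ := h3 x hx y hy
    have := hb j
    rw [hj, abs_of_nonneg (by positivity)] at this
    exact_mod_cast this

end Pool.Agent.Results.MP_e27b9f_nt.CyclesOfLinearComplexity
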